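import Pool.Agent.H261.Ext.Main

set_option autoImplicit false

/-!
# Baire measurable maps on a Lindelöf set of extreme points have separable range
-/

namespace Pool.Agent.Results.MP_fe178f_an.SeparableRange

universe u v

/-- `B` is a Baire set of the topological space `T`: it belongs to the sigma-algebra generated by
the zero sets of the continuous functions from `T` to `ℝ`. -/
def IsBaireSet {T : Type u} [TopologicalSpace T] (B : Set T) : Prop :=
  @MeasurableSet T (MeasurableSpace.generateFrom {Z : Set T | ∃ g : C(T, ℝ), Z = g ⁻¹' {0}}) B

/-- Let `X` be a compact subset (for instance a nonempty compact convex subset) of a Hausdorff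
locally convex space such that the set of extreme points of `X` is Lindelöf, and let `f` be a Baire
measurable map from the set of extreme points of `X` to a metrizable topological space `F` (for
instance to a Fréchet space). Then the range of `f` is separable. -/
theorem result {E : Type u} [AddCommGroup E] [Module ℝ E] [TopologicalSpace E]
    [IsTopologicalAddGroup E] [ContinuousSMul ℝ E] [LocallyConvexSpace ℝ E] [T2Space E]
    (X : Set E) (hX : IsCompact X) (hT : LindelofSpace (X.extremePoints ℝ))
    {F : Type v} [TopologicalSpace F] [TopologicalSpace.MetrizableSpace F]
    (f : X.extremePoints ℝ → F)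
    (hf : ∀ U : Set F, IsOpen U → IsBaireSet (f ⁻¹' U)) :
    TopologicalSpace.SeparableSpace (Set.range f) :=
  (Pool.Agent.H261.Ext.separable_range hX (isLindelof_iff_lindelofSpace.2 hT) f hf).separableSpace

end Pool.Agent.Results.MP_fe178f_an.SeparableRange
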